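import Pool.Agent.Helper75.OWN.Chain

set_option autoImplicit false

namespace Pool.Agent.Results.MP_24b5da_lc.CompleteChains

universe u

theorem result (C : Type u) [LinearOrder C]
    (hC : ∀ S : Set C, (∃ a, IsLUB S a) ∧ (∃ b, IsGLB S b)) (h2 : ∃ a b : C, a ≠ b) :
    ∃ A B : Set C, A ∪ B = Set.univ ∧ A ∩ B = ∅ ∧
      ∀ f : C → C, StrictMono f → (∃ x, f x ∉ A) ∧ (∃ x, f x ∉ B) := by
  obtain ⟨A, hA⟩ := Pool.Agent.Helper75.OWN.split C (fun S => (hC S).1) h2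
  refine ⟨A, Aᶜ, Set.union_compl_self A, Set.inter_compl_self A, fun f hf => ?_⟩
  obtain ⟨h1, x, hx⟩ := hA f hf
  exact ⟨h1, x, fun h => h hx⟩

end Pool.Agent.Results.MP_24b5da_lc.CompleteChains
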